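import Mathlib

namespace Pool.Agent.Results.MP_c48ca6_an.NotPolyhedral

open Set Filter Topology
open scoped InnerProductSpace

section Defs
variable {H : Type} [NormedAddCommGroup H] [InnerProductSpace ℝ H]

/-- the normal cone `N_A(x)` -/
def normalCone (A : Set H) (x : H) : Set H := {v | ∀ a ∈ A, ⟪a - x, v⟫_ℝ ≤ 0}

/-- `A` is `α`-sharp with respect to `u` -/
def Sharp (A : Set H) (α : ℝ) (u : H) : Prop :=
  ∀ x ∈ A, u ∉ normalCone A x → α ≤ Metric.infDist u (normalCone A x)

/-- polyhedral set -/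
def Polyhedral (A : Set H) : Prop :=
  ∃ (m : ℕ) (a : Fin m → H) (b : Fin m → ℝ), 1 ≤ m ∧ A = {x | ∀ j, ⟪a j, x⟫_ℝ ≤ b j}

/-- nonempty, closed, convex and not polyhedral -/
def Bad (A : Set H) : Prop := A.Nonempty ∧ IsClosed A ∧ Convex ℝ A ∧ ¬ Polyhedral A

/-- uniformly sharp -/
def UnifSharp (A : Set H) : Prop := ∃ α : ℝ, 0 < α ∧ ∀ u : H, ‖u‖ = 1 → Sharp A α u

/-- sharp with respect to each unit vector, with a constant that may depend on the vector -/
def EachSharp (A : Set H) : Prop := ∀ u : H, ‖u‖ = 1 → ∃ α : ℝ, 0 < α ∧ Sharp A α u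

/-- the linear span of `A` is dense -/
def Total (A : Set H) : Prop := Dense (Submodule.span ℝ A : Set H)

end Defs

/-- the real Hilbert space `ℓ²(ℕ)` -/
abbrev L2 : Type := lp (fun _ : ℕ => ℝ) 2

noncomputable def e (n : ℕ) (c : ℝ) : L2 := lp.single 2 n c

theorem e_apply (n k : ℕ) (c : ℝ) : e n c k = if k = n then c else 0 := by
  unfold e
  split_ifs with h
  · subst h; simp
  · simp [lp.single_apply, Pi.single_apply, h]

theorem inner_e (n : ℕ) (c : ℝ) (v : L2) : ⟪e n c, v⟫_ℝ = c * v n := by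
  unfold e
  rw [lp.inner_single_left]
  simp [mul_comm]

theorem hasSum_inner (x v : L2) : HasSum (fun n => x n * v n) ⟪x, v⟫_ℝ := by
  have := lp.hasSum_inner (𝕜 := ℝ) x v
  simpa [mul_comm] using this

theorem abs_le (x : L2) (n : ℕ) : |x n| ≤ ‖x‖ := by
  simpa using lp.norm_apply_le_norm (by norm_num) x n

theorem exists_orth {m : ℕ} (a : Fin m → L2) : ∃ w : L2, (∃ n, w n ≠ 0) ∧ ∀ j, ⟪a j, w⟫_ℝ = 0 := by
  let T : (Fin (m + 1) → ℝ) →ₗ[ℝ] (Fin m → ℝ) :=
    { toFun := fun c j => ∑ i : Fin (m + 1), c i * a j i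
      map_add' := by intro c d; ext j; simp [add_mul, Finset.sum_add_distrib]
      map_smul' := by intro t c; ext j; simp [Finset.mul_sum, mul_assoc] }
  have hT : LinearMap.ker T ≠ ⊥ := LinearMap.ker_ne_bot_of_finrank_lt (by simp)
  obtain ⟨c, hc, hc0⟩ := Submodule.exists_mem_ne_zero_of_ne_bot hT
  refine ⟨∑ i : Fin (m + 1), e i (c i), ?_, fun j => ?_⟩
  · obtain ⟨i, hi⟩ := Function.ne_iff.1 hc0
    refine ⟨i, ?_⟩
    rw [lp.coeFn_sum, Finset.sum_apply, Finset.sum_eq_single i]
    · simpa [e_apply] using hi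
    · intro k _ hk
      rw [e_apply, if_neg (fun h => hk (Fin.ext h.symm))]
    · simp
  · rw [inner_sum]
    have := congrFun (LinearMap.mem_ker.1 hc) j
    simp only [T, LinearMap.coe_mk, AddHom.coe_mk, Pi.zero_apply] at this
    rw [← this]
    refine Finset.sum_congr rfl fun i _ => ?_
    rw [real_inner_comm, inner_e]

theorem not_poly {A : Set L2} (h0 : 0 ∈ A) (hb : ∀ x ∈ A, ∀ n, |x n| ≤ 1) : ¬ Polyhedral A := by
  rintro ⟨m, a, b, -, rfl⟩
  obtain ⟨w, ⟨n, hn⟩, hw⟩ := exists_orth a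
  have := hb ((2 / w n) • w) (fun j => by
    rw [inner_smul_right, hw j, mul_zero]; simpa using h0 j) n
  rw [lp.coeFn_smul, Pi.smul_apply, smul_eq_mul, div_mul_cancel₀ _ hn] at this
  norm_num at this

/-- the unit ball of `ℓ¹` inside `ℓ²` -/
def B : Set L2 := {x | ∀ s : Finset ℕ, ∑ n ∈ s, |x n| ≤ 1}

theorem e_mem (n : ℕ) {c : ℝ} (hc : |c| ≤ 1) : e n c ∈ B := by
  intro s
  simp only [e_apply]
  by_cases h : n ∈ s
  · rw [Finset.sum_eq_single n]
    · simpa using hc
    · intro k _ hk; simp [hk]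
    · intro h'; exact absurd h h'
  · rw [Finset.sum_eq_zero]
    · norm_num
    · intro k hk
      rw [if_neg (fun (q : k = n) => h (q ▸ hk)), abs_zero]

theorem inner_le {x v : L2} (hx : x ∈ B) {c : ℝ} (hv : ∀ n, |v n| ≤ c) (n : ℕ) :
    ⟪x, v⟫_ℝ ≤ x n * v n + c * (1 - |x n|) := by
  have hc : 0 ≤ c := (abs_nonneg _).trans (hv 0)
  refine le_of_tendsto (hasSum_inner x v) ?_
  filter_upwards [eventually_ge_atTop ({n} : Finset ℕ)] with s hs
  have hn : n ∈ s := hs (Finset.mem_singleton_self n)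
  have h1 := hx s
  rw [← Finset.add_sum_erase s _ hn] at h1 ⊢
  have : ∑ k ∈ s.erase n, x k * v k ≤ c * ∑ k ∈ s.erase n, |x k| := by
    rw [Finset.mul_sum]
    refine Finset.sum_le_sum fun k _ => ?_
    calc x k * v k ≤ |x k * v k| := le_abs_self _
      _ = |x k| * |v k| := abs_mul _ _
      _ ≤ |x k| * c := mul_le_mul_of_nonneg_left (hv k) (abs_nonneg _)
      _ = c * |x k| := mul_comm _ _
  nlinarith

theorem gap (u : L2) (hu : ‖u‖ = 1) : ∃ n₀ δ, 0 < δ ∧ δ ≤ |u n₀| ∧
    ∀ n, |u n| = |u n₀| ∨ |u n| ≤ |u n₀| - δ := by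
  have hs : Summable fun n => u n * u n := (hasSum_inner u u).summable
  obtain ⟨k, hk⟩ : ∃ k, u k ≠ 0 := by
    by_contra hc
    push Not at hc
    have : u = 0 := by ext k; simpa using hc k
    simp [this] at hu
  have hk' : 0 < |u k| := abs_pos.2 hk
  have hfin : {n | |u k| / 2 ≤ |u n|}.Finite := by
    have := hs.tendsto_cofinite_zero.eventually (gt_mem_nhds (show 0 < (|u k| / 2) ^ 2 by positivity))
    refine (eventually_cofinite.1 this).subset fun n hn h => ?_
    have h1 : |u k| / 2 ≤ |u n| := hn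
    have h2 : u n * u n = |u n| ^ 2 := by rw [sq_abs]; ring
    nlinarith
  obtain ⟨n₀, hn₀, hmax⟩ := exists_max_image _ (fun n => |u n|) hfin
    ⟨k, show |u k| / 2 ≤ |u k| by linarith⟩
  have hk0 : |u k| ≤ |u n₀| := hmax k (show |u k| / 2 ≤ |u k| by linarith)
  have hf2 : ({n | |u k| / 2 ≤ |u n| ∧ |u n| < |u n₀|}).Finite := hfin.subset fun n hn => hn.1
  rcases eq_empty_or_nonempty {n | |u k| / 2 ≤ |u n| ∧ |u n| < |u n₀|} with h | h
  · refine ⟨n₀, |u k| / 2, by linarith, by linarith, fun n => ?_⟩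
    by_cases h1 : |u k| / 2 ≤ |u n|
    · left
      by_contra h2
      exact eq_empty_iff_forall_notMem.1 h n ⟨h1, lt_of_le_of_ne (hmax n h1) h2⟩
    · right; linarith
  · obtain ⟨n₁, hn₁, hmax₁⟩ := exists_max_image _ (fun n => |u n|) hf2 h
    refine ⟨n₀, |u n₀| - |u n₁|, by linarith [hn₁.2], by linarith [abs_nonneg (u n₁)], fun n => ?_⟩
    by_cases h1 : |u k| / 2 ≤ |u n|
    · by_cases h2 : |u n| = |u n₀|
      · exact Or.inl h2
      · right
        have := hmax₁ n ⟨h1, lt_of_le_of_ne (hmax n h1) h2⟩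
        linarith
    · right; linarith [hn₁.1]

theorem B_sharp : EachSharp B := by
  intro u hu
  obtain ⟨n₀, δ, hδ, hδ', hgap⟩ := gap u hu
  set M := |u n₀| with hM
  have huM : ∀ n, |u n| ≤ M := fun n => (hgap n).elim le_of_eq fun h => by linarith
  refine ⟨δ / 2, by linarith, fun x hx hux => ?_⟩
  rw [Metric.le_infDist ⟨0, fun a _ => by simp⟩]
  intro v hv
  by_contra hlt
  push Not at hlt
  apply hux
  have hd : ∀ n, |u n - v n| < δ / 2 := fun n => by
    have := abs_le (u - v) n
    rw [dist_eq_norm] at hlt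
    simpa using this.trans_lt hlt
  set c := ⟪x, v⟫_ℝ with hc
  have hvc : ∀ n, |v n| ≤ c := fun n => by
    have h1 := hv _ (e_mem n (c := 1) (by simp))
    have h2 := hv _ (e_mem n (c := -1) (by simp))
    rw [inner_sub_left, inner_e] at h1 h2
    rw [_root_.abs_le]; constructor <;> linarith
  have hc1 : M - δ / 2 < c := by
    have h1 := hvc n₀
    have h2 := hd n₀
    have h3 := abs_sub_abs_le_abs_sub (u n₀) (v n₀)
    linarith
  have key : ∀ n, c * (x n * u n) = M * (x n * v n) := by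
    intro n
    have h1 := inner_le hx hvc n
    have h2 := _root_.abs_le.1 (hvc n)
    have h3 := abs_lt.1 (hd n)
    have h4 := _root_.abs_le.1 (huM n)
    rcases lt_trichotomy (x n) 0 with h | h | h
    · rw [abs_of_neg h] at h1
      have hv' : v n = -c := by nlinarith
      have hu' : u n = -M := by
        rcases hgap n with h5 | h5
        · rcases abs_cases (u n) with h6 | h6 <;> linarith
        · rcases abs_cases (u n) with h6 | h6 <;> linarith
      rw [hv', hu']; ring
    · simp [h]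
    · rw [abs_of_pos h] at h1
      have hv' : v n = c := by nlinarith
      have hu' : u n = M := by
        rcases hgap n with h5 | h5
        · rcases abs_cases (u n) with h6 | h6 <;> linarith
        · rcases abs_cases (u n) with h6 | h6 <;> linarith
      rw [hv', hu']; ring
  have h1 : c * ⟪x, u⟫_ℝ = M * c := by
    have a := (hasSum_inner x u).mul_left c
    have b := (hasSum_inner x v).mul_left M
    simp only [key] at a
    exact a.unique b
  have hxu : ⟪x, u⟫_ℝ = M := by
    have : 0 < c := by linarith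
    have h2 : c * (⟪x, u⟫_ℝ - M) = 0 := by linarith
    rcases mul_eq_zero.1 h2 with h | h <;> linarith
  intro a ha
  rw [inner_sub_left, hxu]
  have h2 := inner_le ha huM 0
  have h3 : a 0 * u 0 ≤ M * |a 0| := by
    calc a 0 * u 0 ≤ |a 0 * u 0| := le_abs_self _
      _ = |a 0| * |u 0| := abs_mul _ _
      _ ≤ |a 0| * M := mul_le_mul_of_nonneg_left (huM 0) (abs_nonneg _)
      _ = M * |a 0| := mul_comm _ _
  linarith

theorem cont (n : ℕ) : Continuous fun x : L2 => x n := by
  have : (fun x : L2 => x n) = fun x => ⟪e n 1, x⟫_ℝ := by ext x; simp [inner_e]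
  rw [this]; fun_prop

theorem result : (∃ A : Set L2, Bad A ∧ UnifSharp A) ∧
    (∃ A : Set L2, Bad A ∧ EachSharp A ∧ Bornology.IsBounded A ∧ Total A) := by
  constructor
  · refine ⟨{0}, ⟨singleton_nonempty _, isClosed_singleton, convex_singleton _,
      not_poly rfl (by rintro x rfl n; simp)⟩, 1, one_pos, ?_⟩
    rintro u - x rfl h
    exact absurd (by rintro a rfl; simp) h
  · have h0 : (0 : L2) ∈ B := fun s => by simp
    have hb : ∀ x ∈ B, ∀ n, |x n| ≤ 1 := fun x hx n => by simpa using hx {n}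
    refine ⟨B, ⟨⟨0, h0⟩, ?_, ?_, not_poly h0 hb⟩, B_sharp, ?_, ?_⟩
    · have : B = ⋂ s : Finset ℕ, {x : L2 | ∑ n ∈ s, |x n| ≤ 1} := by ext x; simp [B]
      rw [this]
      refine isClosed_iInter fun s => isClosed_le ?_ continuous_const
      exact continuous_finsetSum _ fun n _ => (cont n).abs
    · intro x hx y hy a b ha hb' hab s
      have h1 := hx s
      have h2 := hy s
      calc ∑ n ∈ s, |(a • x + b • y) n| ≤ ∑ n ∈ s, (a * |x n| + b * |y n|) := by
            refine Finset.sum_le_sum fun n _ => ?_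
            simp only [lp.coeFn_add, lp.coeFn_smul, Pi.add_apply, Pi.smul_apply, smul_eq_mul]
            refine (abs_add_le _ _).trans ?_
            rw [abs_mul, abs_mul, abs_of_nonneg ha, abs_of_nonneg hb']
        _ = a * ∑ n ∈ s, |x n| + b * ∑ n ∈ s, |y n| := by
            rw [Finset.sum_add_distrib, Finset.mul_sum, Finset.mul_sum]
        _ ≤ 1 := by nlinarith
    · rw [isBounded_iff_forall_norm_le]
      refine ⟨2, fun x hx => ?_⟩
      have h1 := inner_le hx (hb x hx) 0
      rw [real_inner_self_eq_norm_sq] at h1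
      have h2 := hb x hx 0
      have h3 : x 0 * x 0 = |x 0| ^ 2 := by rw [sq_abs]; ring
      nlinarith [abs_nonneg (x 0), norm_nonneg x]
    · unfold Total
      rw [Submodule.dense_iff_topologicalClosure_eq_top, Submodule.topologicalClosure_eq_top_iff,
        Submodule.eq_bot_iff]
      intro v hv
      ext n
      have := (Submodule.mem_orthogonal _ _).1 hv _ (Submodule.subset_span (e_mem n (c := 1) (by simp)))
      simpa [inner_e] using this

end Pool.Agent.Results.MP_c48ca6_an.NotPolyhedral
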